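import Mathlib
import Pool.Statements.S00753

set_option autoImplicit false
open Pool Pool.MP_104382_al

namespace Pool.Agent.S00753

/-!
The open unit square is paradoxical under `SL_2(ℝ)`.

We use nine matrices `g_i = M_i / 11`, where `M_i` is an integral matrix with determinant `121`. The matrices `M_i`
have rank one modulo `11`; their row spaces modulo `11` are pairwise different, and so are their column spaces. Every
point `x` of the square is mapped into the square by at least three of the `g_i`. Extend the `11`-adic valuation to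
the real numbers. For all but one `i` the norm of `g_i x` is `|11|⁻¹` times the norm of `x`, and for all but one `i`
the norm of `g_i⁻¹ y` is `|11|⁻¹` times the norm of `y`. So if `S` is a finite subset of the square and `x` is an
element of `S` of maximal norm, then all but one of the points `g_i x` are not among the points `g_j x'`,
`x' ∈ S`, except for `x' = x` and `j = i`. Hence the set of the points `g_i x` in the square, `x ∈ S`, has at least
`2 |S|` elements, and the theorem of Hall gives the decomposition.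
-/

open Finset

section Val

/-- A valuation ring of the real numbers in which `11` is not a unit. -/
theorem exists_val : ∃ A : ValuationSubring ℝ, A.valuation (11 : ℝ) < 1 := by
  let A : Subring ℝ := ⊥
  have h11 : (11 : ℝ) ∈ A := by
    rw [Subring.mem_bot]
    exact ⟨11, by norm_num⟩
  let I : Ideal A := Ideal.span {⟨11, h11⟩}
  have hI : I ≠ ⊤ := by
    intro h
    have h1 : (1 : A) ∈ I := h ▸ Submodule.mem_top
    obtain ⟨a, ha⟩ := Ideal.mem_span_singleton'.1 h1
    obtain ⟨k, hk⟩ := Subring.mem_bot.1 a.2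
    have h2 : (a : ℝ) * 11 = 1 := congrArg (fun x : A => (x : ℝ)) ha
    rw [← hk] at h2
    have h3 : k * 11 = 1 := by exact_mod_cast h2
    omega
  obtain ⟨B, -, hB⟩ := Ideal.image_subset_nonunits_valuationSubring I hI
  refine ⟨B, ?_⟩
  have h1 : (11 : ℝ) ∈ B.nonunits := hB ⟨⟨11, h11⟩, Ideal.subset_span rfl, rfl⟩
  exact h1

variable {Γ : Type} [LinearOrderedCommGroupWithZero Γ] (ν : Valuation ℝ Γ)

theorem val_int (n : ℤ) : ν (n : ℝ) ≤ 1 := by
  have h1 : ∀ m : ℕ, ν (m : ℝ) ≤ 1 := by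
    intro m
    induction m with
    | zero => rw [Nat.cast_zero, map_zero]; exact zero_le_one
    | succ m ih =>
      rw [Nat.cast_succ]
      refine (ν.map_add _ _).trans (max_le ih ?_)
      rw [map_one]
  rcases Int.eq_nat_or_neg n with ⟨m, rfl | rfl⟩
  · exact_mod_cast h1 m
  · rw [Int.cast_neg, Valuation.map_neg]
    exact_mod_cast h1 m

theorem val_cop (h11 : ν (11 : ℝ) < 1) {n : ℤ} (hn : n % 11 ≠ 0) : ν (n : ℝ) = 1 := by
  have hcop : IsCoprime n 11 := by
    rw [Int.isCoprime_iff_gcd_eq_one]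
    have hp : Nat.Prime 11 := by norm_num
    have h1 : ¬ (11 : ℕ) ∣ n.natAbs := by
      intro h
      apply hn
      have h2 : (11 : ℤ) ∣ n := Int.natCast_dvd.2 h
      exact Int.emod_eq_zero_of_dvd h2
    have h2 := (Nat.Prime.coprime_iff_not_dvd hp).2 h1
    have h3 : Nat.gcd n.natAbs 11 = 1 := by
      rw [Nat.gcd_comm]
      exact h2
    simpa [Int.gcd] using h3
  obtain ⟨a, b, hab⟩ := hcop
  refine le_antisymm (val_int ν n) ?_
  by_contra hlt
  rw [not_le] at hlt
  have h1 : ((a * n + b * 11 : ℤ) : ℝ) = 1 := by rw [hab]; norm_num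
  push_cast at h1
  have h2 : ν ((a : ℝ) * n + b * 11) = 1 := by rw [h1, map_one]
  have h3 : ν ((a : ℝ) * n) < 1 := by
    rw [map_mul]
    calc ν (a : ℝ) * ν (n : ℝ) ≤ 1 * ν (n : ℝ) := by gcongr; exact val_int ν a
      _ < 1 := by rw [one_mul]; exact hlt
  have h4 : ν ((b : ℝ) * 11) < 1 := by
    rw [map_mul]
    calc ν (b : ℝ) * ν (11 : ℝ) ≤ 1 * ν (11 : ℝ) := by gcongr; exact val_int ν b
      _ < 1 := by rw [one_mul]; exact h11
  have h5 := ν.map_add_lt h3 h4
  rw [h2] at h5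
  exact lt_irrefl _ h5

/-- The norm of a vector. -/
def nm (x : Fin 2 → ℝ) : Γ := max (ν (x 0)) (ν (x 1))

/-- The action of an integral matrix. -/
def act (M : Matrix (Fin 2) (Fin 2) ℤ) (x : Fin 2 → ℝ) : Fin 2 → ℝ :=
  fun k => (M k 0 : ℝ) * x 0 + (M k 1 : ℝ) * x 1

theorem val_row_le (a b : ℤ) (x : Fin 2 → ℝ) : ν ((a : ℝ) * x 0 + (b : ℝ) * x 1) ≤ nm ν x := by
  refine (ν.map_add _ _).trans (max_le ?_ ?_)
  · rw [map_mul]
    calc ν (a : ℝ) * ν (x 0) ≤ 1 * ν (x 0) := by gcongr; exact val_int ν a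
      _ ≤ _ := by rw [one_mul]; exact le_max_left _ _
  · rw [map_mul]
    calc ν (b : ℝ) * ν (x 1) ≤ 1 * ν (x 1) := by gcongr; exact val_int ν b
      _ ≤ _ := by rw [one_mul]; exact le_max_right _ _

theorem nm_act_le (M : Matrix (Fin 2) (Fin 2) ℤ) (x : Fin 2 → ℝ) : nm ν (act M x) ≤ nm ν x :=
  max_le (val_row_le ν _ _ x) (val_row_le ν _ _ x)

theorem two_rows (h11 : ν (11 : ℝ) < 1) {a b c d : ℤ} (h : (a * d - b * c) % 11 ≠ 0) (x : Fin 2 → ℝ)
    (h1 : ν ((a : ℝ) * x 0 + (b : ℝ) * x 1) < nm ν x)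
    (h2 : ν ((c : ℝ) * x 0 + (d : ℝ) * x 1) < nm ν x) : False := by
  have hD := val_cop ν h11 h
  set u := (a : ℝ) * x 0 + (b : ℝ) * x 1 with hu
  set v := (c : ℝ) * x 0 + (d : ℝ) * x 1 with hv
  have hb : ∀ (m n : ℤ) (y : ℝ), ((a * d - b * c : ℤ) : ℝ) * y = (m : ℝ) * u + (n : ℝ) * v → ν y < nm ν x := by
    intro m n y hy
    have h3 : ν y = ν (((a * d - b * c : ℤ) : ℝ) * y) := by rw [map_mul, hD, one_mul]
    rw [h3, hy]
    refine ν.map_add_lt ?_ ?_
    · rw [map_mul]
      calc ν (m : ℝ) * ν u ≤ 1 * ν u := by gcongr; exact val_int ν m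
        _ < _ := by rw [one_mul]; exact h1
    · rw [map_mul]
      calc ν (n : ℝ) * ν v ≤ 1 * ν v := by gcongr; exact val_int ν n
        _ < _ := by rw [one_mul]; exact h2
  have e0 : ν (x 0) < nm ν x := hb d (-b) (x 0) (by rw [hu, hv]; push_cast; ring)
  have e1 : ν (x 1) < nm ν x := hb (-c) a (x 1) (by rw [hu, hv]; push_cast; ring)
  exact lt_irrefl _ (max_lt e0 e1)

/-- Two matrices with independent rows modulo `11` do not both make the norm of a vector smaller. -/
theorem not_both (h11 : ν (11 : ℝ) < 1) {M N : Matrix (Fin 2) (Fin 2) ℤ}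
    (h : ∃ k l : Fin 2, (M k 0 * N l 1 - M k 1 * N l 0) % 11 ≠ 0) (x : Fin 2 → ℝ)
    (h1 : nm ν (act M x) < nm ν x) (h2 : nm ν (act N x) < nm ν x) : False := by
  obtain ⟨k, l, hkl⟩ := h
  refine two_rows ν h11 hkl x (lt_of_le_of_lt ?_ h1) (lt_of_le_of_lt ?_ h2)
  · have h3 : ∀ k : Fin 2, ν ((M k 0 : ℝ) * x 0 + (M k 1 : ℝ) * x 1) ≤ nm ν (act M x) := by
      intro k
      fin_cases k
      · exact le_max_left _ _
      · exact le_max_right _ _
    exact h3 k
  · have h3 : ∀ l : Fin 2, ν ((N l 0 : ℝ) * x 0 + (N l 1 : ℝ) * x 1) ≤ nm ν (act N x) := by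
      intro k
      fin_cases k
      · exact le_max_left _ _
      · exact le_max_right _ _
    exact h3 l

end Val

/-! ### The matrices -/

/-- The nine matrices. -/
def MM : Fin 9 → Matrix (Fin 2) (Fin 2) ℤ :=
  ![!![9, 1; -4, 13], !![11, 0; -1, 11], !![11, -1; 0, 11], !![1, 7; -16, 9], !![1, 8; -14, 9], !![2, 7; -15, 8],
    !![7, -12; 6, 7], !![7, -13; 5, 8], !![9, -4; 1, 13]]

/-- The adjoint matrices. -/
def NN (i : Fin 9) : Matrix (Fin 2) (Fin 2) ℤ := !![MM i 1 1, -MM i 0 1; -MM i 1 0, MM i 0 0]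

theorem det_MM : ∀ i, MM i 0 0 * MM i 1 1 - MM i 0 1 * MM i 1 0 = 121 := by decide

theorem rows_MM : ∀ i j, i ≠ j → ∃ k l : Fin 2, (MM i k 0 * MM j l 1 - MM i k 1 * MM j l 0) % 11 ≠ 0 := by decide

theorem rows_NN : ∀ i j, i ≠ j → ∃ k l : Fin 2, (NN i k 0 * NN j l 1 - NN i k 1 * NN j l 0) % 11 ≠ 0 := by decide

/-- The action of `g_i`. -/
noncomputable def ga (i : Fin 9) (x : Fin 2 → ℝ) : Fin 2 → ℝ := fun k => act (MM i) x k / 11

/-- The open square. -/
def QQ : Set (Fin 2 → ℝ) := {v : Fin 2 → ℝ | ∀ k, 0 < v k ∧ v k < 1}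

theorem act_NN_ga (i : Fin 9) (x : Fin 2 → ℝ) : act (NN i) (ga i x) = fun k => 11 * x k := by
  have hd : ((MM i 0 0 * MM i 1 1 - MM i 0 1 * MM i 1 0 : ℤ) : ℝ) = 121 := by rw [det_MM]; norm_num
  push_cast at hd
  funext k
  fin_cases k
  · simp [act, ga, NN]
    linear_combination (x 0 / 11) * hd
  · simp [act, ga, NN]
    linear_combination (x 1 / 11) * hd

theorem ga_inj (i : Fin 9) {x y : Fin 2 → ℝ} (h : ga i x = ga i y) : x = y := by
  have h1 := act_NN_ga i x
  rw [h, act_NN_ga] at h1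
  funext k
  have h2 : (11 : ℝ) * y k = 11 * x k := congrFun h1 k
  linarith

theorem cover {x : Fin 2 → ℝ} (hx : x ∈ QQ) : ∃ i j k : Fin 9, i ≠ j ∧ j ≠ k ∧ i ≠ k ∧ ga i x ∈ QQ ∧ ga j x ∈ QQ ∧
    ga k x ∈ QQ := by
  have h0 := hx 0
  have h1 := hx 1
  have key : ∀ i, (0 < act (MM i) x 0 ∧ act (MM i) x 0 < 11) ∧ (0 < act (MM i) x 1 ∧ act (MM i) x 1 < 11) →
      ga i x ∈ QQ := by
    rintro i ⟨⟨a, b⟩, ⟨c, d⟩⟩ k
    fin_cases k
    · exact ⟨by simp only [ga]; positivity, by simp only [ga]; change act (MM i) x 0 / 11 < 1; linarith⟩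
    · exact ⟨by simp only [ga]; positivity, by simp only [ga]; change act (MM i) x 1 / 11 < 1; linarith⟩
  rcases le_or_gt (2 * x 0) (x 1) with h | h
  · refine ⟨3, 4, 5, by decide, by decide, by decide, key 3 ?_, key 4 ?_, key 5 ?_⟩ <;>
    · simp [act, MM]
      refine ⟨⟨?_, ?_⟩, ⟨?_, ?_⟩⟩ <;> linarith [h0.1, h0.2, h1.1, h1.2]
  · rcases le_or_gt (2 * x 1) (x 0) with h' | h'
    · refine ⟨6, 7, 8, by decide, by decide, by decide, key 6 ?_, key 7 ?_, key 8 ?_⟩ <;>
      · simp [act, MM]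
        refine ⟨⟨?_, ?_⟩, ⟨?_, ?_⟩⟩ <;> linarith [h0.1, h0.2, h1.1, h1.2]
    · refine ⟨0, 1, 2, by decide, by decide, by decide, key 0 ?_, key 1 ?_, key 2 ?_⟩ <;>
      · simp [act, MM]
        refine ⟨⟨?_, ?_⟩, ⟨?_, ?_⟩⟩ <;> linarith [h0.1, h0.2, h1.1, h1.2]

/-! ### The condition of Hall -/

section Hall

open Classical in
/-- The indices of the matrices which map the point into the square. -/
noncomputable def idx (x : Fin 2 → ℝ) : Finset (Fin 9) := univ.filter fun i => ga i x ∈ QQ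

open Classical in
/-- The neighbours of a point. -/
noncomputable def nb (x : Fin 2 → ℝ) : Finset (Fin 2 → ℝ) := (idx x).image fun i => ga i x

theorem card_idx {x : Fin 2 → ℝ} (hx : x ∈ QQ) : 3 ≤ (idx x).card := by
  classical
  obtain ⟨i, j, k, h1, h2, h3, hi, hj, hk⟩ := cover hx
  have h4 : ({i, j, k} : Finset (Fin 9)) ⊆ idx x := by
    intro l hl
    rw [Finset.mem_insert, Finset.mem_insert, Finset.mem_singleton] at hl
    unfold idx
    rw [Finset.mem_filter]
    rcases hl with rfl | rfl | rfl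
    · exact ⟨Finset.mem_univ _, hi⟩
    · exact ⟨Finset.mem_univ _, hj⟩
    · exact ⟨Finset.mem_univ _, hk⟩
  have h5 := Finset.card_le_card h4
  rwa [Finset.card_eq_three.2 ⟨i, j, k, h1, h3, h2, rfl⟩] at h5

variable {Γ : Type} [LinearOrderedCommGroupWithZero Γ] (ν : Valuation ℝ Γ)

theorem nm_div (x : Fin 2 → ℝ) : nm ν x = nm ν (fun k => x k / 11) * ν 11 := by
  have h : ∀ k, ν (x k) = ν (x k / 11) * ν 11 := fun k => by
    rw [← map_mul]
    congr 1
    ring
  unfold nm
  rw [h 0, h 1]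
  rcases le_total (ν (x 0 / 11)) (ν (x 1 / 11)) with h2 | h2
  · rw [max_eq_right h2, max_eq_right (by gcongr)]
  · rw [max_eq_left h2, max_eq_left (by gcongr)]

theorem nm_pos {x : Fin 2 → ℝ} (hx : x ∈ QQ) : 0 < nm ν x := by
  have h1 : ν (x 0) ≠ 0 := (Valuation.ne_zero_iff ν).2 (hx 0).1.ne'
  exact lt_of_lt_of_le (zero_lt_iff.2 h1) (le_max_left _ _)

/-- If `g_i x = g_j x'` with `i ≠ j`, and the norm of `M_i x` is that of `x`, then the norm of `x'` is larger than
that of `x`. -/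
theorem nm_lt (h11 : ν (11 : ℝ) < 1) {i j : Fin 9} (hij : i ≠ j) {x x' : Fin 2 → ℝ} (hx : x ∈ QQ)
    (hi : ¬ nm ν (act (MM i) x) < nm ν x) (h : ga i x = ga j x') : nm ν x < nm ν x' := by
  have h0 : 0 < ν (11 : ℝ) := zero_lt_iff.2 ((Valuation.ne_zero_iff ν).2 (by norm_num))
  have hx0 := nm_pos ν hx
  set y := ga i x with hy
  -- the norm of `y`
  have h1 : nm ν x = nm ν y * ν 11 := by
    have e1 : nm ν (act (MM i) x) = nm ν x := le_antisymm (nm_act_le ν _ x) (not_lt.1 hi)
    rw [← e1, nm_div ν (act (MM i) x)]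
    rfl
  have hy0 : 0 < nm ν y := by
    by_contra hcon
    have e2 : nm ν y = 0 := le_antisymm (not_lt.1 hcon) zero_le
    rw [e2, zero_mul] at h1
    rw [h1] at hx0
    exact lt_irrefl _ hx0
  -- the index `i` is exceptional for `y`
  have h2 : nm ν (act (NN i) y) < nm ν y := by
    have e1 : nm ν (act (NN i) y) = nm ν x * ν 11 := by
      rw [hy, act_NN_ga, nm_div ν fun k => 11 * x k]
      congr 2
      funext k
      ring
    rw [e1, h1]
    calc nm ν y * ν 11 * ν 11 < nm ν y * 1 * 1 := by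
          gcongr
      _ = nm ν y := by rw [mul_one, mul_one]
  have h3 : ¬ nm ν (act (NN j) y) < nm ν y := fun h3 => not_both ν h11 (rows_NN i j hij) y h2 h3
  have h4 : nm ν (act (NN j) y) = nm ν x' * ν 11 := by
    rw [h, act_NN_ga, nm_div ν fun k => 11 * x' k]
    congr 2
    funext k
    ring
  rw [h4, not_lt] at h3
  by_contra hcon
  rw [not_lt] at hcon
  have h5 : nm ν x' * ν 11 < nm ν y := by
    calc nm ν x' * ν 11 ≤ nm ν x * ν 11 := by gcongr
      _ = nm ν y * ν 11 * ν 11 := by rw [h1]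
      _ < nm ν y * 1 * 1 := by gcongr
      _ = nm ν y := by rw [mul_one, mul_one]
  exact absurd h5 (not_lt.2 h3)

open Classical in
theorem hall (h11 : ν (11 : ℝ) < 1) (S : Finset (Fin 2 → ℝ)) (hS : ∀ x ∈ S, x ∈ QQ) :
    2 * S.card ≤ (S.biUnion nb).card := by
  induction hn : S.card generalizing S with
  | zero => omega
  | succ m ih =>
    have hne : S.Nonempty := Finset.card_pos.1 (by omega)
    obtain ⟨x, hxS, hmax⟩ := S.exists_max_image (nm ν) hne
    have hx := hS x hxS
    have h1 := ih (S.erase x) (fun y hy => hS y (Finset.mem_of_mem_erase hy))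
      (by rw [Finset.card_erase_of_mem hxS]; omega)
    -- the private neighbours
    let good := (idx x).filter fun i => ¬ nm ν (act (MM i) x) < nm ν x
    have hbad : ((idx x).filter fun i => nm ν (act (MM i) x) < nm ν x).card ≤ 1 := by
      rw [Finset.card_le_one]
      intro i hi j hj
      by_contra hij
      exact not_both ν h11 (rows_MM i j hij) x (Finset.mem_filter.1 hi).2 (Finset.mem_filter.1 hj).2
    have hgood : 2 ≤ good.card := by
      have e1 := Finset.card_filter_add_card_filter_not (s := idx x)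
        (fun i => nm ν (act (MM i) x) < nm ν x)
      have e2 := card_idx hx
      change 2 ≤ ((idx x).filter fun i => ¬ nm ν (act (MM i) x) < nm ν x).card
      omega
    have hpriv : ∀ i ∈ good, ∀ x' ∈ S, ∀ j, ga i x = ga j x' → i = j ∧ x = x' := by
      intro i hi x' hx' j hj
      have hi2 := (Finset.mem_filter.1 hi).2
      by_cases hij : i = j
      · subst hij
        exact ⟨rfl, ga_inj i hj⟩
      · exact absurd (nm_lt ν h11 hij hx hi2 hj) (not_lt.2 (hmax x' hx'))
    have hcard : (good.image fun i => ga i x).card = good.card := by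
      refine Finset.card_image_of_injOn fun i hi j hj h => ?_
      exact (hpriv i hi x hxS j h).1
    have hdisj : Disjoint ((S.erase x).biUnion nb) (good.image fun i => ga i x) := by
      rw [Finset.disjoint_left]
      intro y hy hy'
      obtain ⟨x', hx', hyx'⟩ := Finset.mem_biUnion.1 hy
      obtain ⟨j, -, rfl⟩ := Finset.mem_image.1 hyx'
      obtain ⟨i, hi, hij⟩ := Finset.mem_image.1 hy'
      exact (Finset.ne_of_mem_erase hx') (hpriv i hi x' (Finset.mem_of_mem_erase hx') j hij).2.symm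
    have hsub : (S.erase x).biUnion nb ∪ (good.image fun i => ga i x) ⊆ S.biUnion nb := by
      refine Finset.union_subset (Finset.biUnion_subset_biUnion_of_subset_left _ (Finset.erase_subset _ _)) ?_
      intro y hy
      obtain ⟨i, hi, rfl⟩ := Finset.mem_image.1 hy
      exact Finset.mem_biUnion.2 ⟨x, hxS, Finset.mem_image.2 ⟨i, (Finset.mem_filter.1 hi).1, rfl⟩⟩
    have h2 := Finset.card_le_card hsub
    rw [Finset.card_union_of_disjoint hdisj, hcard] at h2
    omega

end Hall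

/-- The matrix `g_i`. -/
noncomputable def gG (i : Fin 9) : Matrix.SpecialLinearGroup (Fin 2) ℝ :=
  ⟨Matrix.of fun k l => (MM i k l : ℝ) / 11, by
    have hd : ((MM i 0 0 * MM i 1 1 - MM i 0 1 * MM i 1 0 : ℤ) : ℝ) = 121 := by rw [det_MM]; norm_num
    push_cast at hd
    rw [Matrix.det_fin_two]
    simp only [Matrix.of_apply]
    linear_combination hd / 121⟩

theorem gG_act (i : Fin 9) (x : Fin 2 → ℝ) :
    Matrix.mulVec ((gG i : Matrix (Fin 2) (Fin 2) ℝ)) x = ga i x := by
  funext k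
  rw [Matrix.mulVec, dotProduct, Fin.sum_univ_two]
  simp only [gG, Matrix.of_apply, ga, act]
  ring

theorem gG_inv (i : Fin 9) (x : Fin 2 → ℝ) :
    Matrix.mulVec (((gG i)⁻¹ : Matrix.SpecialLinearGroup (Fin 2) ℝ) : Matrix (Fin 2) (Fin 2) ℝ) (ga i x) = x := by
  rw [← gG_act, Matrix.mulVec_mulVec, ← Matrix.SpecialLinearGroup.coe_mul, inv_mul_cancel,
    Matrix.SpecialLinearGroup.coe_one, Matrix.one_mulVec]

/-- The open unit square in the plane can be split into finitely many pairwise disjoint pieces forming two groups, and each group can be moved by determinant-one real linear maps so that its images exactly cover the square again. -/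
theorem result :
    ∃ (n m : ℕ) (A : Fin n → Set (Fin 2 → ℝ)) (B : Fin m → Set (Fin 2 → ℝ))
      (g : Fin n → Matrix.SpecialLinearGroup (Fin 2) ℝ)
      (h : Fin m → Matrix.SpecialLinearGroup (Fin 2) ℝ),
      (∀ i, A i ⊆ {v : Fin 2 → ℝ | ∀ k, 0 < v k ∧ v k < 1}) ∧
      (∀ j, B j ⊆ {v : Fin 2 → ℝ | ∀ k, 0 < v k ∧ v k < 1}) ∧
      Pairwise (fun i i' => Disjoint (A i) (A i')) ∧
      Pairwise (fun j j' => Disjoint (B j) (B j')) ∧
      (∀ i j, Disjoint (A i) (B j)) ∧
      (⋃ i, (fun v => Matrix.mulVec ((g i : Matrix (Fin 2) (Fin 2) ℝ)) v) '' A i)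
        = {v : Fin 2 → ℝ | ∀ k, 0 < v k ∧ v k < 1} ∧
      (⋃ j, (fun v => Matrix.mulVec ((h j : Matrix (Fin 2) (Fin 2) ℝ)) v) '' B j)
        = {v : Fin 2 → ℝ | ∀ k, 0 < v k ∧ v k < 1} := by
  classical
  obtain ⟨V, hV⟩ := exists_val
  -- the theorem of Hall
  obtain ⟨f, hf, hf'⟩ := (Finset.all_card_le_biUnion_card_iff_exists_injective
    (fun p : QQ × Bool => nb p.1.1)).1 (by
      intro s
      let S : Finset (Fin 2 → ℝ) := s.image fun p => p.1.1
      have h1 := hall V.valuation hV S (by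
        intro x hx
        obtain ⟨p, -, rfl⟩ := Finset.mem_image.1 hx
        exact p.1.2)
      have h2 : s.card ≤ 2 * S.card := by
        have h3 : s.card ≤ (S ×ˢ (Finset.univ : Finset Bool)).card := by
          refine Finset.card_le_card_of_injOn (fun p => (p.1.1, p.2)) ?_ ?_
          · intro p hp
            exact Finset.mem_coe.2 (Finset.mem_product.2 ⟨Finset.mem_image.2 ⟨p, hp, rfl⟩, Finset.mem_univ _⟩)
          · rintro ⟨⟨x, hx⟩, b⟩ - ⟨⟨y, hy⟩, c⟩ - h
            have h4 := Prod.ext_iff.1 h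
            simp only at h4
            obtain ⟨rfl, rfl⟩ := h4
            rfl
        rw [Finset.card_product, Finset.card_univ, Fintype.card_bool] at h3
        omega
      have h3 : S.biUnion nb = s.biUnion fun p : QQ × Bool => nb p.1.1 := by
        ext y
        simp only [Finset.mem_biUnion, S, Finset.mem_image]
        constructor
        · rintro ⟨x, ⟨p, hp, rfl⟩, hy⟩
          exact ⟨p, hp, hy⟩
        · rintro ⟨p, hp, hy⟩
          exact ⟨p.1.1, ⟨p, hp, rfl⟩, hy⟩
      rw [h3] at h1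
      exact h2.trans h1)
  have hidx : ∀ p : QQ × Bool, ∃ i : Fin 9, ga i p.1.1 = f p ∧ f p ∈ QQ := by
    intro p
    obtain ⟨i, hi, h⟩ := Finset.mem_image.1 (hf' p)
    refine ⟨i, h, ?_⟩
    rw [← h]
    exact (Finset.mem_filter.1 hi).2
  choose c hc hcQ using hidx
  let A : Bool → Fin 9 → Set (Fin 2 → ℝ) := fun b i => {y | ∃ x : QQ, c (x, b) = i ∧ f (x, b) = y}
  have hA : ∀ b i, A b i ⊆ QQ := by
    rintro b i y ⟨x, -, rfl⟩
    exact hcQ _
  have hpw : ∀ b, Pairwise (fun i i' => Disjoint (A b i) (A b i')) := by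
    intro b i i' hii'
    rw [Set.disjoint_left]
    rintro y ⟨x, h1, h2⟩ ⟨x', h1', h2'⟩
    have h3 := hf (h2.trans h2'.symm)
    rw [← h3] at h1'
    exact hii' (h1.symm.trans h1')
  have hun : ∀ b, (⋃ i, (fun v => Matrix.mulVec
      (((gG i)⁻¹ : Matrix.SpecialLinearGroup (Fin 2) ℝ) : Matrix (Fin 2) (Fin 2) ℝ) v) '' A b i) = QQ := by
    intro b
    ext x
    rw [Set.mem_iUnion]
    constructor
    · rintro ⟨i, y, ⟨x', h1, h2⟩, rfl⟩
      have h3 := hc (x', b)
      rw [h1, h2] at h3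
      simp only [← h3, gG_inv]
      exact x'.2
    · intro hx
      refine ⟨c (⟨x, hx⟩, b), f (⟨x, hx⟩, b), ⟨⟨x, hx⟩, rfl, rfl⟩, ?_⟩
      have h3 := hc (⟨x, hx⟩, b)
      simp only [← h3, gG_inv]
  refine ⟨9, 9, A false, A true, fun i => (gG i)⁻¹, fun i => (gG i)⁻¹, hA false, hA true, hpw false, hpw true,
    fun i j => ?_, hun false, hun true⟩
  rw [Set.disjoint_left]
  rintro y ⟨x, -, h2⟩ ⟨x', -, h2'⟩
  have h3 := hf (h2.trans h2'.symm)
  exact Bool.false_ne_true (congrArg Prod.snd h3)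

end Pool.Agent.S00753
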