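import Pool.Statements.S05466
import Pool.Agent.D0H34.Gas

set_option autoImplicit false
open MeasureTheory Filter Topology
open Pool Pool.MP_95eb0c_an

namespace Pool.Agent.S05466

open Pool.Agent.D0H34.Gas

/-- the state alternates between `(τ, v, p) = (2, 0, 1)` and `(1, 2, 5)`, on both sides of lines of
slope `2` where the Rankine-Hugoniot conditions hold (`γ = 2`) -/
theorem tests (n : ℕ) (φ : ℝ × ℝ → ℝ) (hφ : ContDiff ℝ ((⊤ : ℕ∞) : WithTop ℕ∞) φ)
    (hc : HasCompactSupport φ) (hs : tsupport φ ⊆ {z : ℝ × ℝ | 0 < z.2}) :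
    (∀ w : ℝ × ℝ, (∫ z in {z : ℝ × ℝ | 0 < z.2}, fderiv ℝ φ z w) = 0) ∧
    (∀ w : ℝ × ℝ, IntegrableOn (fun z => fderiv ℝ φ z w) {z : ℝ × ℝ | 0 < z.2}) ∧
    (∀ w : ℝ × ℝ, IntegrableOn (fun z => X n z * fderiv ℝ φ z w) {z : ℝ × ℝ | 0 < z.2}) ∧
    (∫ z in {z : ℝ × ℝ | 0 < z.2}, X n z * fderiv ℝ φ z (2, 1)) = 0 := by
  have hd : ∀ w : ℝ × ℝ, Continuous fun z => fderiv ℝ φ z w := fun w =>
    (hφ.continuous_fderiv (by simp)).clm_apply continuous_const
  have hdc : ∀ w : ℝ × ℝ, HasCompactSupport fun z => fderiv ℝ φ z w := fun w =>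
    hc.fderiv_apply ℝ w
  have hdi : ∀ w : ℝ × ℝ, Integrable fun z => fderiv ℝ φ z w := fun w =>
    (hd w).integrable_of_hasCompactSupport (hdc w)
  have hi : Integrable φ := hφ.continuous.integrable_of_hasCompactSupport hc
  have hout : ∀ w : ℝ × ℝ, ∀ z : ℝ × ℝ, z ∉ {z : ℝ × ℝ | 0 < z.2} → fderiv ℝ φ z w = 0 := by
    intro w z hz
    have : z ∉ tsupport φ := fun h => hz (hs h)
    rw [fderiv_of_notMem_tsupport ℝ this]
    simp
  have hdiff : Differentiable ℝ φ := hφ.differentiable (by simp)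
  refine ⟨fun w => ?_, fun w => (hdi w).integrableOn, fun w => (int_X_mul (hdi w) n).integrableOn, ?_⟩
  · rw [setIntegral_eq_integral_of_forall_compl_eq_zero (hout w)]
    have h := integral_mul_fderiv_eq_neg_fderiv_mul_of_integrable (μ := (volume : Measure (ℝ × ℝ)))
      (𝕜 := ℝ) (f := fun _ => (1 : ℝ)) (g := φ) (v := w) (by simp) (by simpa using hdi w)
      (by simpa using hi) (by intro x _; fun_prop) (fun x _ => hdiff x)
    simpa using h
  · rw [setIntegral_eq_integral_of_forall_compl_eq_zero (fun z hz => by rw [hout _ z hz, mul_zero])]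
    have h := integral_bilinear_hasLineDerivAt_right_eq_neg_left_of_integrable
      (μ := (volume : Measure (ℝ × ℝ))) (f := X n) (f' := fun _ => (0 : ℝ)) (g := φ)
      (g' := fun z => fderiv ℝ φ z (2, 1)) (v := ((2, 1) : ℝ × ℝ)) (B := ContinuousLinearMap.mul ℝ ℝ)
      (by simp) (int_X_mul (hdi _) n) (int_X_mul hi n) (fun z _ => ?_)
      (fun z _ => (hdiff z).hasFDerivAt.hasLineDerivAt _)
    · simpa using h
    · have : (fun t : ℝ => X n (z + t • ((2, 1) : ℝ × ℝ))) = fun _ => X n z := by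
        funext t
        unfold X
        congr 1
        simp only [Prod.fst_add, Prod.snd_add, Prod.smul_fst, Prod.smul_snd, smul_eq_mul]
        ring
      unfold HasLineDerivAt
      rw [this]
      exact hasDerivAt_const _ _

/-- The negation of the preceding statement: For ideal gas γ>1, any sequence of bounded weak solutions of 1D Lagrangian gas dynamics on t>0 with uniform bounds τ,p bounded away from 0 and ∣v∣≤V, converging weak-* in L^∞, has velocity and pressure converging in L¹ on every compact subset. -/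
theorem result :
    ¬ (∀ (γ : ℝ), 1 < γ →
  ∀ (τe ve pe : ℕ → ℝ × ℝ → ℝ) (τ v p : ℝ × ℝ → ℝ) (τm τM pm pM V : ℝ),
  0 < τm → τm ≤ τM → 0 < pm → pm ≤ pM →
  (∀ n, AEStronglyMeasurable (τe n) (volume.restrict {z : ℝ × ℝ | 0 < z.2}) ∧
        AEStronglyMeasurable (ve n) (volume.restrict {z : ℝ × ℝ | 0 < z.2}) ∧
        AEStronglyMeasurable (pe n) (volume.restrict {z : ℝ × ℝ | 0 < z.2})) →
  (∀ n, ∀ᵐ z ∂(volume.restrict {z : ℝ × ℝ | 0 < z.2}),
        τm ≤ τe n z ∧ τe n z ≤ τM ∧ pm ≤ pe n z ∧ pe n z ≤ pM ∧ |ve n z| ≤ V) →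
  (∀ n, ∀ φ : ℝ × ℝ → ℝ, ContDiff ℝ ((⊤ : ℕ∞) : WithTop ℕ∞) φ → HasCompactSupport φ →
      tsupport φ ⊆ {z : ℝ × ℝ | 0 < z.2} →
      (∫ z in {z : ℝ × ℝ | 0 < z.2},
          (τe n z * fderiv ℝ φ z (0, 1) - ve n z * fderiv ℝ φ z (1, 0))) = 0 ∧
      (∫ z in {z : ℝ × ℝ | 0 < z.2},
          (ve n z * fderiv ℝ φ z (0, 1) + pe n z * fderiv ℝ φ z (1, 0))) = 0 ∧
      (∫ z in {z : ℝ × ℝ | 0 < z.2},
          ((ve n z ^ 2 / 2 + pe n z * τe n z / (γ - 1)) * fderiv ℝ φ z (0, 1)
            + pe n z * ve n z * fderiv ℝ φ z (1, 0))) = 0) →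
  AEStronglyMeasurable τ (volume.restrict {z : ℝ × ℝ | 0 < z.2}) →
  AEStronglyMeasurable v (volume.restrict {z : ℝ × ℝ | 0 < z.2}) →
  AEStronglyMeasurable p (volume.restrict {z : ℝ × ℝ | 0 < z.2}) →
  (∃ C : ℝ, ∀ᵐ z ∂(volume.restrict {z : ℝ × ℝ | 0 < z.2}),
      |τ z| ≤ C ∧ |v z| ≤ C ∧ |p z| ≤ C) →
  (∀ g : ℝ × ℝ → ℝ, Integrable g (volume.restrict {z : ℝ × ℝ | 0 < z.2}) →
      Tendsto (fun n => ∫ z in {z : ℝ × ℝ | 0 < z.2}, τe n z * g z) atTop
        (𝓝 (∫ z in {z : ℝ × ℝ | 0 < z.2}, τ z * g z)) ∧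
      Tendsto (fun n => ∫ z in {z : ℝ × ℝ | 0 < z.2}, ve n z * g z) atTop
        (𝓝 (∫ z in {z : ℝ × ℝ | 0 < z.2}, v z * g z)) ∧
      Tendsto (fun n => ∫ z in {z : ℝ × ℝ | 0 < z.2}, pe n z * g z) atTop
        (𝓝 (∫ z in {z : ℝ × ℝ | 0 < z.2}, p z * g z))) →
  ∀ K : Set (ℝ × ℝ), IsCompact K → K ⊆ {z : ℝ × ℝ | 0 < z.2} →
    Tendsto (fun n => ∫ z in K, |ve n z - v z|) atTop (𝓝 0) ∧
    Tendsto (fun n => ∫ z in K, |pe n z - p z|) atTop (𝓝 0)) := by
  intro H
  have hH : MeasurableSet {z : ℝ × ℝ | 0 < z.2} := measurableSet_lt measurable_const measurable_snd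
  have h := H 2 one_lt_two (fun n z => 2 - X n z) (fun n z => 2 * X n z) (fun n z => 1 + 4 * X n z)
    (fun _ => 3 / 2) (fun _ => 1) (fun _ => 3) 1 2 1 5 2 one_pos one_le_two one_pos (by norm_num)
    (fun n => ?_) (fun n => ?_) (fun n φ hφ hc hs => ?_) (by fun_prop) (by fun_prop) (by fun_prop)
    ⟨3, ae_of_all _ fun z => by norm_num⟩ (fun g hg => ?_)
    (Set.Icc 0 1 ×ˢ Set.Icc 1 2) (isCompact_Icc.prod isCompact_Icc) (fun z hz => ?_)
  · have h1 := h.1
    have h2 : ∀ n : ℕ, ∫ z in (Set.Icc (0 : ℝ) 1 ×ˢ Set.Icc (1 : ℝ) 2), |2 * X n z - 1| = 1 := by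
      intro n
      have h3 : ∀ z, |2 * X n z - 1| = 1 := by
        intro z
        rcases X_cases n z with h | h <;> rw [h] <;> norm_num
      simp only [h3]
      rw [setIntegral_const, smul_eq_mul, mul_one, Measure.volume_eq_prod, Measure.real,
        Measure.prod_prod]
      simp
      norm_num
    simp only [h2] at h1
    have := tendsto_nhds_unique h1 tendsto_const_nhds
    norm_num at this
  · have := (measurable_X n)
    exact ⟨(by fun_prop : Measurable fun z => 2 - X n z).aestronglyMeasurable,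
      (by fun_prop : Measurable fun z => 2 * X n z).aestronglyMeasurable,
      (by fun_prop : Measurable fun z => 1 + 4 * X n z).aestronglyMeasurable⟩
  · refine ae_of_all _ fun z => ?_
    rcases X_cases n z with h | h <;> simp only [h] <;> norm_num
  · obtain ⟨t1, t2, t3, t4⟩ := tests n φ hφ hc hs
    have e21 : ∀ z, fderiv ℝ φ z (2, 1) = fderiv ℝ φ z (0, 1) + 2 * fderiv ℝ φ z (1, 0) := by
      intro z
      have : ((2, 1) : ℝ × ℝ) = (0, 1) + (2 : ℝ) • (1, 0) := by simp
      rw [this, map_add, map_smul, smul_eq_mul]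
    refine ⟨?_, ?_, ?_⟩
    · have e : ∀ z, (2 - X n z) * fderiv ℝ φ z (0, 1) - 2 * X n z * fderiv ℝ φ z (1, 0)
          = 2 * fderiv ℝ φ z (0, 1) - X n z * fderiv ℝ φ z (2, 1) := by
        intro z; rw [e21]; ring
      simp only [e]
      rw [integral_sub ((t2 _).const_mul 2) (t3 _), integral_const_mul, t1, t4]
      norm_num
    · have e : ∀ z, 2 * X n z * fderiv ℝ φ z (0, 1) + (1 + 4 * X n z) * fderiv ℝ φ z (1, 0)
          = fderiv ℝ φ z (1, 0) + 2 * (X n z * fderiv ℝ φ z (2, 1)) := by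
        intro z; rw [e21]; ring
      simp only [e]
      rw [integral_add (t2 _) ((t3 _).const_mul 2), integral_const_mul, t1, t4]
      norm_num
    · have e : ∀ z, ((2 * X n z) ^ 2 / 2 + (1 + 4 * X n z) * (2 - X n z) / (2 - 1))
            * fderiv ℝ φ z (0, 1) + (1 + 4 * X n z) * (2 * X n z) * fderiv ℝ φ z (1, 0)
          = 2 * fderiv ℝ φ z (0, 1) + 5 * (X n z * fderiv ℝ φ z (2, 1)) := by
        intro z
        rw [e21]
        rcases X_cases n z with h | h <;> rw [h] <;> ring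
      simp only [e]
      rw [integral_add ((t2 _).const_mul 2) ((t3 _).const_mul 5), integral_const_mul,
        integral_const_mul, t1, t4]
      norm_num
  · set G : ℝ × ℝ → ℝ := Set.indicator {z : ℝ × ℝ | 0 < z.2} g with hG
    have hGi : Integrable G := (integrable_indicator_iff hH).2 hg
    have hw := X_weak hGi
    have eX : ∀ n, ∫ z in {z : ℝ × ℝ | 0 < z.2}, X n z * g z = ∫ z, X n z * G z := by
      intro n
      rw [← integral_indicator hH]
      refine integral_congr_ae (ae_of_all _ fun z => ?_)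
      simp only [hG]
      by_cases hz : z ∈ {z : ℝ × ℝ | 0 < z.2}
      · simp [hz]
      · simp [hz]
    have eG : ∫ z in {z : ℝ × ℝ | 0 < z.2}, g z = ∫ z, G z := by
      rw [← integral_indicator hH]
    have hXi : ∀ n, IntegrableOn (fun z => X n z * g z) {z : ℝ × ℝ | 0 < z.2} := by
      intro n
      refine hg.bdd_mul (c := 1) (measurable_X n).aestronglyMeasurable ?_
      exact ae_of_all _ fun z => by rw [Real.norm_eq_abs]; exact X_abs n z
    refine ⟨?_, ?_, ?_⟩
    · have e : ∀ n, ∫ z in {z : ℝ × ℝ | 0 < z.2}, (2 - X n z) * g z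
          = 2 * (∫ z, G z) - ∫ z, X n z * G z := by
        intro n
        have : ∀ z, (2 - X n z) * g z = 2 * g z - X n z * g z := fun z => by ring
        simp only [this]
        rw [integral_sub (hg.const_mul 2) (hXi n), integral_const_mul, eX, eG]
      simp only [e]
      rw [integral_const_mul, eG]
      have h2 := (tendsto_const_nhds (x := 2 * ∫ z, G z)).sub hw
      convert h2 using 2
      ring
    · have e : ∀ n, ∫ z in {z : ℝ × ℝ | 0 < z.2}, (2 * X n z) * g z
          = 2 * ∫ z, X n z * G z := by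
        intro n
        have : ∀ z, (2 * X n z) * g z = 2 * (X n z * g z) := fun z => by ring
        simp only [this]
        rw [integral_const_mul, eX]
      simp only [e]
      rw [integral_const_mul, eG]
      have h2 := hw.const_mul 2
      convert h2 using 2
      ring
    · have e : ∀ n, ∫ z in {z : ℝ × ℝ | 0 < z.2}, (1 + 4 * X n z) * g z
          = (∫ z, G z) + 4 * ∫ z, X n z * G z := by
        intro n
        have : ∀ z, (1 + 4 * X n z) * g z = g z + 4 * (X n z * g z) := fun z => by ring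
        simp only [this]
        rw [integral_add hg ((hXi n).const_mul 4), integral_const_mul, eX, eG]
      simp only [e]
      rw [integral_const_mul, eG]
      have h2 := (tendsto_const_nhds (x := ∫ z, G z)).add (hw.const_mul 4)
      convert h2 using 2
      ring
  · have := hz.2.1
    have h0 : 0 < z.2 := by linarith
    exact h0


end Pool.Agent.S05466
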