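import Pool.Statements.S06533
import Pool.Agent.D0H27.OR.Main

set_option autoImplicit false
open MeasureTheory Filter Topology
open Pool Pool.MP_e8a8db_an

namespace Pool.Agent.S06533

/-- Every nontrivial mixing measure-preserving system on a probability space has an over-recurrent set, or a bounded non-constant function f with ∫ f·f∘T^n ≥ (∫ f)^2 for all n ≥ 1. -/
theorem result :
    ∀ (X : Type) [MeasurableSpace X] (μ : Measure X) [IsProbabilityMeasure μ] (T : X → X),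
      MeasurePreserving T μ μ →
      (∃ A : Set X, MeasurableSet A ∧ 0 < μ A ∧ μ A < 1) →
      (∀ A B : Set X, MeasurableSet A → MeasurableSet B →
        Tendsto (fun n : ℕ => μ (A ∩ T^[n] ⁻¹' B)) atTop (𝓝 (μ A * μ B))) →
      (∃ A : Set X, MeasurableSet A ∧ 0 < μ A ∧ μ A < 1 ∧
          ∀ n : ℕ, 1 ≤ n → μ A ^ 2 ≤ μ (A ∩ T^[n] ⁻¹' A)) ∨
      (∃ f : X → ℝ, MemLp f ⊤ μ ∧ (¬ ∃ c : ℝ, f =ᵐ[μ] fun _ => c) ∧
          ∀ n : ℕ, 1 ≤ n → (∫ x, f x ∂μ) ^ 2 ≤ ∫ x, f x * f (T^[n] x) ∂μ) := by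
  intro X _ μ _ T hT hnt hmix
  left
  have hreal : ∀ s : Set X, μ s = ENNReal.ofReal (μ.real s) := fun s =>
    (ofReal_measureReal (measure_ne_top μ s)).symm
  have hM : Pool.Agent.D0H27.OR.Mix μ T := by
    intro A B hA hB
    have h := hmix A B hA hB
    have h2 := (ENNReal.tendsto_toReal (ENNReal.mul_ne_top (measure_ne_top μ A)
      (measure_ne_top μ B))).comp h
    rw [ENNReal.toReal_mul] at h2
    exact h2
  have hnt' : ∃ A : Set X, MeasurableSet A ∧ 0 < μ.real A ∧ μ.real A < 1 := by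
    obtain ⟨A, hA, h0, h1⟩ := hnt
    refine ⟨A, hA, ENNReal.toReal_pos h0.ne' (measure_ne_top μ A), ?_⟩
    have := (ENNReal.toReal_lt_toReal (measure_ne_top μ A) ENNReal.one_ne_top).2 h1
    rw [ENNReal.toReal_one] at this
    exact this
  obtain ⟨A, hA, h0, h1, h2⟩ := Pool.Agent.D0H27.OR.exists_overRecurrent hM hnt' hT
  refine ⟨A, hA, ?_, ?_, fun n hn => ?_⟩
  · rw [hreal]; exact ENNReal.ofReal_pos.2 h0
  · rw [hreal, ← ENNReal.ofReal_one]
    exact (ENNReal.ofReal_lt_ofReal_iff one_pos).2 h1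
  · rw [hreal A, hreal (A ∩ _), ← ENNReal.ofReal_pow h0.le]
    exact ENNReal.ofReal_le_ofReal (h2 n hn)

end Pool.Agent.S06533
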