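-- Proof of the frozen statement S10533.
import Pool.Statements.S10533
import Pool.Agent.D0H22.Danz.Upper
import Pool.Agent.H9.Danz2

set_option autoImplicit false
open Pool Pool.MP_a382a5_co

namespace Pool.Agent.S10533

open Pool.Agent.D0H22.Danz in
lemma fe_of_trans {E : Type*} [NormedAddCommGroup E] [InnerProductSpace ℝ E] {T : Finset E}
    (h : ∃ p v : E, v ≠ 0 ∧ ∀ c ∈ T, ∃ t : ℝ, dist (p + t • v) c ≤ 1) :
    ∃ p u, Fe (noR E) T 1 p u := by
  obtain ⟨p, v, hv, h⟩ := h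
  have hvn : 0 < ‖v‖ := norm_pos_iff.2 hv
  have hu : ‖(‖v‖⁻¹ • v : E)‖ = 1 := by
    rw [norm_smul, norm_inv, norm_norm, inv_mul_cancel₀ hvn.ne']
  refine ⟨p, ‖v‖⁻¹ • v, hu, ?_, fun _ _ _ _ h => absurd h id⟩
  intro c hc
  obtain ⟨t, ht⟩ := h c hc
  refine le_trans (norm_perp_le hu (c - p) (t * ‖v‖)) ?_
  rw [smul_smul, mul_assoc, mul_inv_cancel₀ hvn.ne', mul_one, sub_sub, ← dist_eq_norm, dist_comm]
  exact ht

open Pool.Agent.D0H22.Danz in
lemma trans_of_fe {E : Type*} [NormedAddCommGroup E] [InnerProductSpace ℝ E] {T : Finset E}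
    (h : ∃ p u, Fe (noR E) T 1 p u) :
    ∃ p v : E, v ≠ 0 ∧ ∀ c ∈ T, ∃ t : ℝ, dist (p + t • v) c ≤ 1 := by
  obtain ⟨p, u, h⟩ := h
  refine ⟨p, u, ?_, ?_⟩
  · intro h0
    have := h.unit
    rw [h0, norm_zero] at this
    norm_num at this
  · intro c hc
    refine ⟨inner ℝ u (c - p), ?_⟩
    rw [dist_comm, dist_eq_norm, ← sub_sub]
    exact h.near c hc

/-- For every d≥1 and k: if every finite disjoint unit-ball family in dimension d+1 whose (k+1)-subfamilies have line transversals has one, then the same holds in dimension d with k; i.e. the transversal Helly number strictly increases with d. -/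
theorem result :
    ∀ d : ℕ, 1 ≤ d → ∀ k : ℕ,
      (∀ S : Finset (EuclideanSpace ℝ (Fin (d + 1))),
        (∀ x ∈ S, ∀ y ∈ S, x ≠ y → 2 < dist x y) →
        (∀ T ⊆ S, T.card ≤ k + 1 →
          ∃ p v : EuclideanSpace ℝ (Fin (d + 1)), v ≠ 0 ∧
            ∀ c ∈ T, ∃ t : ℝ, dist (p + t • v) c ≤ 1) →
        ∃ p v : EuclideanSpace ℝ (Fin (d + 1)), v ≠ 0 ∧
          ∀ c ∈ S, ∃ t : ℝ, dist (p + t • v) c ≤ 1) →
      (∀ S : Finset (EuclideanSpace ℝ (Fin d)),
        (∀ x ∈ S, ∀ y ∈ S, x ≠ y → 2 < dist x y) →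
        (∀ T ⊆ S, T.card ≤ k →
          ∃ p v : EuclideanSpace ℝ (Fin d), v ≠ 0 ∧
            ∀ c ∈ T, ∃ t : ℝ, dist (p + t • v) c ≤ 1) →
        ∃ p v : EuclideanSpace ℝ (Fin d), v ≠ 0 ∧
          ∀ c ∈ S, ∃ t : ℝ, dist (p + t • v) c ≤ 1) := by
  intro d hd k hbig S hdis hT
  rcases Nat.lt_or_ge 1 d with h2 | h1
  · -- dimension at least two
    have hk : 4 * d - 1 ≤ k := by
      by_contra hcon
      obtain ⟨n, hn⟩ : ∃ n, d = n + 1 := ⟨d - 1, by omega⟩
      subst hn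
      obtain ⟨S', hc, hd', hlt, hno⟩ := Pool.Agent.H9.Danz.main n
      exact hno (hbig S' hd' fun T hTS hTc => hlt T hTS (by omega))
    apply trans_of_fe
    refine Pool.Agent.D0H22.Danz.upper (d := d) h2 (by simp) S ?_ ?_
    · intro a ha b hb hab
      rw [← dist_eq_norm]
      exact hdis a ha b hb hab
    · intro T hTS hTc
      exact fe_of_trans (hT T hTS (hTc.trans hk))
  · -- dimension one
    have hd1 : d = 1 := le_antisymm h1 hd
    subst hd1
    refine ⟨0, EuclideanSpace.single 0 1, ?_, ?_⟩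
    · intro h0
      have := congrArg norm h0
      simp at this
    · intro c _
      refine ⟨c 0, ?_⟩
      have : (0 : EuclideanSpace ℝ (Fin 1)) + c 0 • EuclideanSpace.single 0 1 = c := by
        ext i
        fin_cases i
        simp
      rw [this, dist_self]
      norm_num

end Pool.Agent.S10533
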