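import Pool.Statements.S11707
import Pool.Agent.D0H13.ThreeGraph

set_option autoImplicit false
open Classical
open Pool Pool.MP_d61016_co

namespace Pool.Agent.S11707

open Pool.Agent.D0H13.ThreeGraph

/-- Every finite three-graph A embeds as an induced substructure in some finite three-graph B such that every partial automorphism of A extends to an automorphism of B. -/
theorem result :
    ∀ (n : ℕ) (rA : Fin n → Fin n → Prop) (HA : Finset (Finset (Fin n))),
      (Equivalence rA ∧ (∀ a b c, rA a b ∨ rA b c ∨ rA a c) ∧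
        (∀ e ∈ HA, e.card = 4 ∧ ∀ v ∈ e, (e.filter (fun w => rA v w)).card = 2) ∧
        (∀ S : Finset (Fin n), S.card = 5 →
          (∀ v ∈ S, (S.filter (fun w => rA v w)).card ≤ 3) →
          Even (HA.filter (fun e => e ⊆ S)).card)) →
      ∃ (m : ℕ) (rB : Fin m → Fin m → Prop) (HB : Finset (Finset (Fin m))),
        (Equivalence rB ∧ (∀ a b c, rB a b ∨ rB b c ∨ rB a c) ∧
          (∀ e ∈ HB, e.card = 4 ∧ ∀ v ∈ e, (e.filter (fun w => rB v w)).card = 2) ∧
          (∀ S : Finset (Fin m), S.card = 5 →
            (∀ v ∈ S, (S.filter (fun w => rB v w)).card ≤ 3) →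
            Even (HB.filter (fun e => e ⊆ S)).card)) ∧
        ∃ f : Fin n ↪ Fin m,
          (∀ x y, rA x y ↔ rB (f x) (f y)) ∧
          (∀ e : Finset (Fin n), e ∈ HA ↔ e.map f ∈ HB) ∧
          ∀ (S : Finset (Fin n)) (p : Fin n → Fin n),
            Set.InjOn p (S : Set (Fin n)) →
            (∀ x ∈ S, ∀ y ∈ S, rA x y ↔ rA (p x) (p y)) →
            (∀ e ⊆ S, e ∈ HA ↔ e.image p ∈ HA) →
            ∃ σ : Fin m ≃ Fin m,
              (∀ x y, rB x y ↔ rB (σ x) (σ y)) ∧
              (∀ e : Finset (Fin m), e ∈ HB ↔ e.map σ.toEmbedding ∈ HB) ∧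
              ∀ x ∈ S, σ (f x) = f (p x) := by
  intro n rA HA hA
  obtain ⟨hEq, hTwo, hH, hS⟩ := hA
  -- colour the classes
  obtain ⟨c, hc⟩ : ∃ c : Fin n → Bool, ∀ x y, rA x y ↔ c x = c y := by
    rcases isEmpty_or_nonempty (Fin n) with hE | ⟨⟨v0⟩⟩
    · exact ⟨fun _ => false, fun x => (hE.false x).elim⟩
    · refine ⟨fun v => decide (rA v0 v), fun x y => ?_⟩
      simp only [decide_eq_decide]
      constructor
      · intro h
        exact ⟨fun h1 => hEq.trans h1 h, fun h1 => hEq.trans h1 (hEq.symm h)⟩
      · intro h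
        by_cases h1 : rA v0 x
        · exact hEq.trans (hEq.symm h1) (h.mp h1)
        · rcases hTwo v0 x y with h2 | h2 | h2
          · exact absurd h2 h1
          · exact h2
          · exact absurd (h.mpr h2) h1
  have hrA : rA = fun x y => c x = c y := by
    funext x y
    exact propext (hc x y)
  subst hrA
  have hG : Good c HA := by
    refine ⟨fun e he => ⟨(hH e he).1, fun v hv => ?_⟩, fun S hc5 h3 => ?_⟩
    · have := (hH e he).2 v hv
      convert this
    · have := hS S hc5 (fun v hv => by
        have := h3 v hv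
        convert this)
      convert this
  obtain ⟨K, hKs, hHA⟩ := exists_K hG
  subst hHA
  obtain ⟨W, hW, cW, KW, fW, hKW, hcW, hfW, hext⟩ := exists_witness c K hKs
  -- transport to `Fin m`
  let ι : W ≃ Fin (Fintype.card W) := Fintype.equivFin W
  let cB : Fin (Fintype.card W) → Bool := fun v => cW (ι.symm v)
  let KB : Fin (Fintype.card W) → Fin (Fintype.card W) → ZMod 2 :=
    fun x y => KW (ι.symm x) (ι.symm y)
  have hGB := good_hyper cB KB
  refine ⟨Fintype.card W, fun x y => cB x = cB y, hyper cB KB,
    ⟨⟨fun _ => rfl, fun h => h.symm, fun h h' => h.trans h'⟩, ?_, ?_, ?_⟩,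
    fW.trans ι.toEmbedding, ?_, ?_, ?_⟩
  rotate_left
  · intro e he
    refine ⟨(hGB.1 e he).1, fun v hv => ?_⟩
    have := (hGB.1 e he).2 v hv
    convert this
  · intro S hc5 h3
    have := hGB.2 S hc5 (fun v hv => by
      have := h3 v hv
      convert this)
    convert this
  rotate_right
  · intro x y z
    beta_reduce
    generalize cB x = a1
    generalize cB y = a2
    generalize cB z = a3
    revert a1 a2 a3
    decide
  · intro x y
    simp only [cB, Function.Embedding.trans_apply, Equiv.coe_toEmbedding, Equiv.symm_apply_apply,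
      hcW]
  · intro e
    refine mem_hyper_map c cB K KB (fW.trans ι.toEmbedding) false ?_ 0 0 ?_ ?_ e
    · intro v
      simp only [cB, Function.Embedding.trans_apply, Equiv.coe_toEmbedding,
        Equiv.symm_apply_apply, hcW, Bool.xor_false]
    · intro x y _
      exact hKW _ _
    · intro x y hx hy
      simp only [KB, Function.Embedding.trans_apply, Equiv.coe_toEmbedding,
        Equiv.symm_apply_apply, hfW x y hx hy, Pi.zero_apply, add_zero]
  · intro S p hp h1 h2
    obtain ⟨σ, ε, a, b, hσ1, hσ2, hσ3⟩ := hext S p hp h1 (fun e he => by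
      have := h2 e he
      convert this)
    refine ⟨(ι.symm.trans σ).trans ι, ?_, ?_, ?_⟩
    · intro x y
      simp only [cB, Equiv.trans_apply, Equiv.symm_apply_apply, hσ1]
      generalize cW (ι.symm x) = a1
      generalize cW (ι.symm y) = a2
      clear hσ1
      revert a1 a2 ε
      decide
    · intro e
      refine mem_hyper_map cB cB KB KB _ ε ?_ (fun x => a (ι.symm x)) (fun x => b (ι.symm x)) ?_ ?_ e
      · intro v
        simp only [cB, Equiv.coe_toEmbedding, Equiv.trans_apply, Equiv.symm_apply_apply, hσ1]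
      · intro x y _
        exact hKW _ _
      · intro x y hx hy
        simp only [KB, Equiv.coe_toEmbedding, Equiv.trans_apply, Equiv.symm_apply_apply]
        exact hσ2 _ _ hx hy
    · intro x hx
      simp only [Function.Embedding.trans_apply, Equiv.coe_toEmbedding, Equiv.trans_apply,
        Equiv.symm_apply_apply, hσ3 x hx]

end Pool.Agent.S11707
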