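import Pool.Statements.S14076
import Pool.Agent.D0H80.Final

set_option autoImplicit false
open Pool Pool.MP_dc63d3_gt

namespace Pool.Agent.S14076

/-- The negation of the preceding statement: For every real Hilbert space there is a constant C such that, for each n ≥ 2, some retraction from nonempty subsets of at most n points onto those of at most n−1 points is C-Lipschitz for the Hausdorff distance. -/
theorem result :
    ¬ (∀ (H : Type) [NormedAddCommGroup H] [InnerProductSpace ℝ H] [CompleteSpace H],
      ∃ C : ℝ, ∀ n : ℕ, 2 ≤ n →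
        ∃ r : Finset H → Finset H,
          (∀ s : Finset H, s.Nonempty → s.card ≤ n →
              (r s).Nonempty ∧ (r s).card ≤ n - 1) ∧
          (∀ s : Finset H, s.Nonempty → s.card ≤ n - 1 → r s = s) ∧
          (∀ s t : Finset H, s.Nonempty → s.card ≤ n → t.Nonempty → t.card ≤ n →
              Metric.hausdorffDist ((r s : Finset H) : Set H) ((r t : Finset H) : Set H)
                ≤ C * Metric.hausdorffDist ((s : Finset H) : Set H) ((t : Finset H) : Set H))) := by
  intro h
  obtain ⟨C, hC⟩ := h ℂ
  set C' : ℝ := max C 0 with hC'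
  set N : ℕ := ⌈64 * C'⌉₊ with hN
  obtain ⟨r, h1, h2, h3⟩ := hC (2 * N + 1 + 2) (by omega)
  refine Pool.Agent.D0H80.Final.no_retraction (C := C') (le_max_right _ _) (2 * N + 1) ⟨N, rfl⟩ ?_ r
    ?_ ?_ ?_
  · have h4 := Nat.le_ceil (64 * C')
    rw [← hN] at h4
    have h5 : (0 : ℝ) ≤ N := Nat.cast_nonneg N
    push_cast
    linarith
  · intro s hs hc
    exact h1 s hs hc
  · intro s hs hc
    exact h2 s hs hc
  · intro s t hs hsc ht htc
    refine (h3 s t hs hsc ht htc).trans ?_
    exact mul_le_mul_of_nonneg_right (le_max_left _ _) Metric.hausdorffDist_nonneg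

end Pool.Agent.S14076
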