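import Pool.Statements.S14568
import Pool.Agent.D0H64.Gas

set_option autoImplicit false
open Classical
open Pool Pool.MP_354b3e_lc

namespace Pool.Agent.S14568

/-- The negation of the preceding statement: For every noncomputable A Turing-below the halting set there is a computable, locally finite, planar graph on ℕ whose neighbour lists are A-computable, with chromatic number 2, but with no computable proper colouring using finitely many colours.

Let `A` be a 1-generic set computable in the halting set. A bound for the neighbours of `x` computed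
from `A` must be correct for all strings extending some initial segment of `A`, since that a string
gives a wrong bound is a c.e. event. Hence an `A`-computable graph has computable neighbour lists, and
has a computable colouring with four colours if it is bipartite. -/
theorem result :
    ¬ (∀ A : Set ℕ,
      ¬ ComputablePred (fun n : ℕ => n ∈ A) →
      TuringReducible (fun n : ℕ => Part.some (if n ∈ A then (1 : ℕ) else 0))
        (fun n : ℕ => Part.some
          (if ((Denumerable.ofNat Nat.Partrec.Code n).eval n).Dom then (1 : ℕ) else 0)) →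
      ∃ G : SimpleGraph ℕ,
        ComputablePred (fun p : ℕ × ℕ => G.Adj p.1 p.2) ∧
        (∃ N : ℕ → Finset ℕ, (∀ x y : ℕ, G.Adj x y ↔ y ∈ N x) ∧
          TuringReducible (fun x : ℕ => Part.some (Encodable.encode (N x)))
            (fun n : ℕ => Part.some (if n ∈ A then (1 : ℕ) else 0))) ∧
        (∃ f : ℕ → EuclideanSpace ℝ (Fin 2), Function.Injective f ∧
          ∃ γ : ∀ u v : ℕ, Path (f u) (f v),
            (∀ u v : ℕ, G.Adj u v → Function.Injective (fun t : unitInterval => γ u v t)) ∧
            (∀ u v w : ℕ, G.Adj u v → ∀ t : unitInterval, γ u v t = f w → w = u ∨ w = v) ∧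
            (∀ u v u' v' : ℕ, G.Adj u v → G.Adj u' v' →
              Sym2.mk (u, v) ≠ Sym2.mk (u', v') →
              ∀ t t' : unitInterval, γ u v t = γ u' v' t' →
                ∃ w : ℕ, (w = u ∨ w = v) ∧ (w = u' ∨ w = v') ∧ γ u v t = f w)) ∧
        G.chromaticNumber = 2 ∧
        ∀ k : ℕ, ∀ c : ℕ → ℕ, Computable c → (∀ x, c x < k) →
          ∃ x y : ℕ, G.Adj x y ∧ c x = c y) := by
  intro H
  obtain ⟨a, haO, hgen⟩ := Pool.Agent.D0H64.Gen.exists_generic
  have hgen' : Pool.Agent.D0H64.Gas.Generic a := hgen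
  obtain ⟨A, hA⟩ : ∃ A : Set ℕ, ∀ n, n ∈ A ↔ a n = true := ⟨{n | a n = true}, fun n => Iff.rfl⟩
  have key : (fun n : ℕ => Part.some (if n ∈ A then (1 : ℕ) else 0)) =
      (fun n : ℕ => Part.some ((a n).toNat)) := by
    funext n
    by_cases hn : n ∈ A
    · rw [if_pos hn, (hA n).1 hn]; rfl
    · rw [if_neg hn, Bool.eq_false_iff.2 fun h => hn ((hA n).2 h)]; rfl
  obtain ⟨G, hG, ⟨N, hN, hNA⟩, -, hchi, hno⟩ := H A (by
    intro hc
    obtain ⟨f, hf, hfa⟩ := Pool.Agent.H37.computablePred_iff.1 hc
    refine Pool.Agent.D0H64.Gas.not_computable hgen' (hf.of_eq fun n => ?_)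
    have h1 : a n = true ↔ f n = true := (hA n).symm.trans (hfa n)
    exact (Bool.eq_iff_iff.2 h1).symm) (by
    have h1 : Pool.Agent.H37.CI Pool.Agent.D0H64.Gen.OK (fun n => (a n).toNat) := by fun_prop
    exact (congrArg (fun g : ℕ →. ℕ => RecursiveIn Pool.Agent.D0H64.Gen.OK g) key).mpr h1.ri)
  obtain ⟨f, hf, hfG⟩ := Pool.Agent.H37.computablePred_iff.1 hG
  have hfG' : ∀ x y, G.Adj x y ↔ f (x, y) = true := fun x y => hfG (x, y)
  have hNA' : Nat.RecursiveIn {((fun n => (a n).toNat : ℕ → ℕ) : ℕ →. ℕ)}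
      ((fun x => Encodable.encode (N x) : ℕ → ℕ) : ℕ →. ℕ) :=
    (congrArg (fun g : ℕ →. ℕ => Nat.RecursiveIn {g}
      ((fun x => Encodable.encode (N x) : ℕ → ℕ) : ℕ →. ℕ)) key).mp (RecursiveIn.iff_nat.1 hNA)
  obtain ⟨b, hb, hb'⟩ := Pool.Agent.D0H64.Gas.exists_bound hgen' (fun x y => f (x, y))
    (hf.comp (g := fun p : ℕ × ℕ => (p.1, p.2)) (by fun_prop))
    (fun x => Encodable.encode (N x)) (fun x y hxy => by
      refine Pool.Agent.D0H64.Gas.mem_le_encode _ _ ?_
      exact (hN x y).1 ((hfG' x y).2 hxy)) hNA'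
  have hcol : G.Colorable 2 := by
    rw [← SimpleGraph.chromaticNumber_le_iff_colorable, hchi]
    rfl
  obtain ⟨C⟩ := hcol
  obtain ⟨c, hc, hc4, hcc⟩ := Pool.Agent.D0H64.Gas.exists_coloring (fun x y => f (x, y))
    (hf.comp (g := fun p : ℕ × ℕ => (p.1, p.2)) (by fun_prop))
    (fun x y h => (hfG' y x).1 ((hfG' x y).2 h).symm) b hb hb' (fun x => C x == 0)
    (fun x y h => by
      have h1 : C x ≠ C y := C.valid ((hfG' x y).2 h)
      have key2 : ∀ u v : Fin 2, u ≠ v → (u == 0) ≠ (v == 0) := by decide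
      exact key2 _ _ h1)
  obtain ⟨x, y, hxy, hcxy⟩ := hno 4 c hc.computable hc4
  exact hcc x y ((hfG' x y).1 hxy) hcxy

end Pool.Agent.S14568
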