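import Pool.Statements.S18419

set_option autoImplicit false
open Pool Pool.MP_c520af_nt

namespace Pool.Agent.S18419

/-- For every number field K there are maps (x,y) to (y, F_d(y) − δ_d x), with deg F_d = d and δ_d ≠ 0, for each d ≥ 2, whose number of K-rational periodic points eventually exceeds C·d for every constant C. -/
theorem result :
    ∀ (K : Type) [Field K] [NumberField K],
      ∃ (F : ℕ → Polynomial K) (δ : ℕ → K),
        (∀ d : ℕ, 2 ≤ d → (F d).natDegree = d ∧ δ d ≠ 0) ∧
        ∀ C : ℕ, ∃ D : ℕ, ∀ d : ℕ, 2 ≤ d → D ≤ d →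
          (((C * d : ℕ) : ℕ∞) <
            {P : K × K | ∃ n : ℕ, 1 ≤ n ∧
              (fun p : K × K => (p.2, (F d).eval p.2 - δ d * p.1))^[n] P = P}.encard) := by
  classical
  intro K _ _
  refine ⟨fun d => ∏ i ∈ Finset.range d, (Polynomial.X - Polynomial.C (i : K)),
    fun _ => -1, ?_, ?_⟩
  · intro d _
    refine ⟨?_, by simp⟩
    have h := Polynomial.natDegree_prod_of_monic (Finset.range d)
      (fun i : ℕ => (Polynomial.X - Polynomial.C (i : K))) (fun i _ => Polynomial.monic_X_sub_C _)
    rw [h]
    simp only [Polynomial.natDegree_X_sub_C, Finset.sum_const, Finset.card_range, smul_eq_mul, mul_one]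
  · intro C
    refine ⟨C + 1, fun d _ hd => ?_⟩
    have hroot : ∀ j : ℕ, j < d →
        (∏ i ∈ Finset.range d, (Polynomial.X - Polynomial.C (i : K))).eval (j : K) = 0 := by
      intro j hj
      rw [Polynomial.eval_prod]
      apply Finset.prod_eq_zero (Finset.mem_range.2 hj)
      simp
    set S : Finset (K × K) :=
      (Finset.range d ×ˢ Finset.range d).image (fun p : ℕ × ℕ => ((p.1 : K), (p.2 : K))) with hS
    have hcard : S.card = d * d := by
      rw [hS, Finset.card_image_of_injective]
      · simp
      · rintro ⟨a, b⟩ ⟨a', b'⟩ h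
        simp only [Prod.mk.injEq, Nat.cast_inj] at h
        simp [h.1, h.2]
    have hsub : (S : Set (K × K)) ⊆ {P : K × K | ∃ n : ℕ, 1 ≤ n ∧
        (fun p : K × K => (p.2, (∏ i ∈ Finset.range d,
          (Polynomial.X - Polynomial.C (i : K))).eval p.2 - (-1) * p.1))^[n] P = P} := by
      intro P hP
      rw [hS] at hP
      simp only [Finset.coe_image, Set.mem_image, Finset.mem_coe, Finset.mem_product,
        Finset.mem_range] at hP
      obtain ⟨⟨a, b⟩, ⟨ha, hb⟩, rfl⟩ := hP
      simp only at ha hb
      refine ⟨2, by norm_num, ?_⟩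
      simp only [Function.iterate_succ, Function.iterate_zero, Function.comp_apply, id_eq]
      rw [hroot b hb]
      have : (0 : K) - -1 * (a : K) = (a : K) := by ring
      rw [this, hroot a ha]
      ext <;> simp
    refine lt_of_lt_of_le ?_ (Set.encard_le_encard hsub)
    rw [Set.encard_coe_eq_coe_finsetCard, hcard]
    have hlt : C * d < d * d := Nat.mul_lt_mul_of_pos_right (by omega) (by omega)
    exact_mod_cast hlt

end Pool.Agent.S18419
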