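import Pool.Statements.S19664
import Pool.Agent.D0H98.Kik.Two

set_option autoImplicit false
open Matrix MeasureTheory ProbabilityTheory
open Pool Pool.MP_d47e08_pr

namespace Pool.Agent.S19664

/-- The negation of the preceding statement: For every even r≥2 and every δ>0, for all large ℓ and every μ>δ, some ε>0 gives, for all large n, E λmax of the Kikuchi matrix at signal μ n^(-r/4) ≥ (1+ε) times E λmax at zero signal; i.e. the threshold tends to 0. -/
theorem result :
    ¬ (∀ r : ℕ, 2 ≤ r → Even r →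
    ∀ δ : ℝ, 0 < δ →
      ∀ᶠ ℓ : ℕ in Filter.atTop, ∀ μ : ℝ, δ < μ →
        ∃ ε : ℝ, 0 < ε ∧ ∀ᶠ n : ℕ in Filter.atTop,
          1 + ε ≤
            (∫ (Z : Finset (Fin n) → ℝ),
                sSup {t : ℝ | ∃ v : {K : Finset (Fin n) // K.card = ℓ} → ℝ,
                  dotProduct v v = 1 ∧
                  t = dotProduct v (Matrix.mulVec
                    (Matrix.of fun I J : {K : Finset (Fin n) // K.card = ℓ} =>
                      if (symmDiff I.1 J.1).card = r
                      then μ * (n : ℝ) ^ (-(r : ℝ) / 4) + Z (symmDiff I.1 J.1)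
                      else 0) v)}
              ∂(Measure.pi fun _ : Finset (Fin n) => gaussianReal 0 1))
            /
            (∫ (Z : Finset (Fin n) → ℝ),
                sSup {t : ℝ | ∃ v : {K : Finset (Fin n) // K.card = ℓ} → ℝ,
                  dotProduct v v = 1 ∧
                  t = dotProduct v (Matrix.mulVec
                    (Matrix.of fun I J : {K : Finset (Fin n) // K.card = ℓ} =>
                      if (symmDiff I.1 J.1).card = r
                      then (0 : ℝ) + Z (symmDiff I.1 J.1)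
                      else 0) v)}
              ∂(Measure.pi fun _ : Finset (Fin n) => gaussianReal 0 1))) := by
  intro h
  have h2 := h 2 le_rfl even_two (1 / 2) (by norm_num)
  obtain ⟨ℓ, h3, hℓ⟩ := (h2.and (Filter.eventually_ge_atTop 1)).exists
  obtain ⟨ε, hε, h4⟩ := h3 1 (by norm_num)
  have h5 := Pool.Agent.D0H98.Kik.ratio_two hℓ hε
  obtain ⟨n, h6, h7⟩ := (h4.and h5).exists
  have h8 : 1 + ε ≤ (∫ Z, Pool.Agent.D0H98.Kik.lmax (Pool.Agent.D0H98.Kik.KM n ℓ 2
      (1 * (n : ℝ) ^ (-((2 : ℕ) : ℝ) / 4)) Z) ∂(Pool.Agent.H320R2.LD.gam (Finset (Fin n)))) /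
      (∫ Z, Pool.Agent.D0H98.Kik.lmax (Pool.Agent.D0H98.Kik.KM n ℓ 2 0 Z)
        ∂(Pool.Agent.H320R2.LD.gam (Finset (Fin n)))) := h6
  rw [Pool.Agent.D0H98.Kik.rpow_half, one_mul] at h8
  exact absurd (lt_of_le_of_lt h8 (h7 _ (by positivity) le_rfl)) (lt_irrefl _)

end Pool.Agent.S19664
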